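import Mathlib
import Pool.Agent.V11242.RN.Exists

/-!
# Consistently `non(E) < b_b^eq` for all `b` with divergent sum of the reciprocals

Adding `ℵ₂` many random reals forces that `non(N) ≤ |K| < cov(N)` for a set `K` of size `ℵ₁`; and
`non(E) ≤ non(N)` and `cov(N) ≤ b_b^eq` hold (in ZFC) whenever the sum of all `1 / b k` diverges.
-/

set_option autoImplicit false

namespace Pool.Agent.Results.MP_0fb2ec_lc.NonELtBEq

open Pool.Agent.V11242.RN

/-- (A) There are a set `K` and a ccc notion of forcing `P` all of whose conditions force the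
sentence `PhiFor K`. (B) Whenever `PhiFor K` holds, then `non(E) < b_b^eq` for all `b` such that
the sum of all `1 / b k` diverges. -/
theorem result :
    (∃ (K P : Type) (_ : Preorder P), Nonempty P ∧
      (∀ A : Set P, (∀ p ∈ A, ∀ q ∈ A, p ≠ q → ¬ ∃ r, r ≤ p ∧ r ≤ q) → A.Countable) ∧
      ∀ p : P, p ∈ PhiHolds P K) ∧
    (∀ K : Type, PhiFor K → ∀ b : ℕ → ℕ, Divergent b →
      (nonE : WithTop Cardinal.{0}) < bEq b) :=
  ⟨exists_forcing, fun _ h _ hb => (WithTop.coe_le_coe.2 (nonE_le h)).trans_lt (lt_bEq h hb)⟩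

end Pool.Agent.Results.MP_0fb2ec_lc.NonELtBEq
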